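import Pool.Agent.helper96.S5.SpecM

/-!
# MP_0b485e_lc, row DIA
-/

set_option autoImplicit false

namespace S5

open PF Relation

/-- Row DIA. -/
theorem DIA_row : DIA_stmt := by
  have hf : Partrec fun n : ℕ =>
      Nat.Partrec.Code.eval (Denumerable.ofNat Nat.Partrec.Code n) n :=
    Nat.Partrec.Code.eval_part.comp (Computable.ofNat _) Computable.id
  have h2 : @Nat.Partrec' 1 (fun v =>
      Nat.Partrec.Code.eval (Denumerable.ofNat Nat.Partrec.Code v.head) v.head) :=
    Nat.Partrec'.part_iff₁.2 hf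
  obtain ⟨c, hc⟩ := Turing.ToPartrec.Code.exists_code h2
  refine ⟨c, ?_⟩
  have hc' : ∀ e : ℕ, c.eval [e] =
      pure <$> Nat.Partrec.Code.eval (Denumerable.ofNat Nat.Partrec.Code e) e :=
    fun e => hc ⟨[e], rfl⟩
  have hmem : ∀ e a : ℕ, a ∈ Nat.Partrec.Code.eval (Denumerable.ofNat Nat.Partrec.Code e) e →
      [a] ∈ c.eval [e] := by
    intro e a ha
    rw [hc' e]
    exact Part.mem_map pure ha
  rintro P hP ⟨h0, h1⟩
  obtain ⟨hd, hP⟩ := hP
  have hg : Computable fun n : ℕ => cond (decide (P n)) 1 0 :=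
    Computable.cond hP (Computable.const 1) (Computable.const 0)
  obtain ⟨c', hc''⟩ := Nat.Partrec.Code.exists_code.1 (Partrec.nat_iff.1 hg.partrec)
  have he : Denumerable.ofNat Nat.Partrec.Code (Encodable.encode c') = c' :=
    Denumerable.ofNat_encode c'
  have hval : cond (decide (P (Encodable.encode c'))) 1 0 ∈
      Nat.Partrec.Code.eval (Denumerable.ofNat Nat.Partrec.Code (Encodable.encode c'))
        (Encodable.encode c') := by
    rw [he, hc'']
    exact Part.mem_some _
  by_cases hp : P (Encodable.encode c')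
  · rw [decide_eq_true hp] at hval
    exact h1 _ (hmem _ _ hval) hp
  · rw [decide_eq_false hp] at hval
    exact hp (h0 _ (hmem _ _ hval))

end S5
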