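import Pool.Agent.helper96.S5.SpecR

/-!
# MP_0b485e_lc, row SMB (the simple set)
-/

set_option autoImplicit false

namespace S5

open PF

/-- stage `s` shows a large element of the `e`-th set -/
def SMB_F (e s : ℕ) : Prop := ∃ x < s + 1, e < Nat.sqrt x ∧ Wst e s x

/-- the number `x` is put in for `e` at the stage `s'` -/
def SMB_R (e x s' : ℕ) : Prop :=
  ((x < s' + 1 ∧ Wst e s' x) ∧ ∀ t < s', ¬ SMB_F e t) ∧
    ∀ x' < x, ¬ (e < Nat.sqrt x' ∧ Wst e s' x')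

def SMB_N (x s : ℕ) : Prop := ∃ e < Nat.sqrt x, ∃ s' < s + 1, SMB_R e x s'

theorem SMB_F_cp : ComputablePred fun x : ℕ × ℕ => SMB_F x.1 x.2 := by
  unfold SMB_F
  refine cp_bex (p := fun (a : ℕ × ℕ) (x : ℕ) => a.1 < Nat.sqrt x ∧ Wst a.1 a.2 x)
    (g := fun a : ℕ × ℕ => a.2 + 1) ?_ (Computable.succ.comp Computable.snd)
  refine cp_and ?_ ?_
  · exact cp_lt (Computable.fst.comp Computable.fst)
      ((Primrec.nat_sqrt.to_comp).comp Computable.snd)
  · exact cp_comp (f := fun x : (ℕ × ℕ) × ℕ => (x.1.1, x.1.2, x.2))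
      ((Computable.fst.comp Computable.fst).pair
        ((Computable.snd.comp Computable.fst).pair Computable.snd)) Wst_computable

theorem SMB_R_cp : ComputablePred fun x : ℕ × ℕ × ℕ => SMB_R x.1 x.2.1 x.2.2 := by
  unfold SMB_R
  refine cp_and (cp_and (cp_and ?_ ?_) ?_) ?_
  · exact cp_lt (Computable.fst.comp Computable.snd)
      (Computable.succ.comp (Computable.snd.comp Computable.snd))
  · exact cp_comp (f := fun x : ℕ × ℕ × ℕ => (x.1, x.2.2, x.2.1))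
      (Computable.fst.pair ((Computable.snd.comp Computable.snd).pair
        (Computable.fst.comp Computable.snd))) Wst_computable
  · refine cp_ball (p := fun (a : ℕ × ℕ × ℕ) (t : ℕ) => ¬ SMB_F a.1 t)
      (g := fun a : ℕ × ℕ × ℕ => a.2.2) ?_ (Computable.snd.comp Computable.snd)
    refine cp_not ?_
    exact cp_comp (f := fun x : (ℕ × ℕ × ℕ) × ℕ => (x.1.1, x.2))
      ((Computable.fst.comp Computable.fst).pair Computable.snd) SMB_F_cp
  · refine cp_ball (p := fun (a : ℕ × ℕ × ℕ) (x' : ℕ) =>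
        ¬ (a.1 < Nat.sqrt x' ∧ Wst a.1 a.2.2 x'))
      (g := fun a : ℕ × ℕ × ℕ => a.2.1) ?_ (Computable.fst.comp Computable.snd)
    refine cp_not (cp_and ?_ ?_)
    · exact cp_lt (Computable.fst.comp Computable.fst)
        ((Primrec.nat_sqrt.to_comp).comp Computable.snd)
    · exact cp_comp (f := fun x : (ℕ × ℕ × ℕ) × ℕ => (x.1.1, x.1.2.2, x.2))
        ((Computable.fst.comp Computable.fst).pair
          ((Computable.snd.comp (Computable.snd.comp Computable.fst)).pair Computable.snd))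
        Wst_computable

theorem SMB_N_cp : ComputablePred fun x : ℕ × ℕ => SMB_N x.1 x.2 := by
  unfold SMB_N
  refine cp_bex (p := fun (a : ℕ × ℕ) (e : ℕ) => ∃ s' < a.2 + 1, SMB_R e a.1 s')
    (g := fun a : ℕ × ℕ => Nat.sqrt a.1) ?_ ((Primrec.nat_sqrt.to_comp).comp Computable.fst)
  refine cp_bex (p := fun (a : (ℕ × ℕ) × ℕ) (s' : ℕ) => SMB_R a.2 a.1.1 s')
    (g := fun a : (ℕ × ℕ) × ℕ => a.1.2 + 1) ?_
    (Computable.succ.comp (Computable.snd.comp Computable.fst))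
  exact cp_comp (f := fun x : ((ℕ × ℕ) × ℕ) × ℕ => (x.1.2, x.1.1.1, x.2))
    ((Computable.snd.comp Computable.fst).pair
      ((Computable.fst.comp (Computable.fst.comp Computable.fst)).pair Computable.snd))
    SMB_R_cp

/-- every `e` puts in at most one number -/
theorem SMB_uniq {e x x2 s s2 : ℕ} (hx : e < Nat.sqrt x) (hx2 : e < Nat.sqrt x2)
    (h : SMB_R e x s) (h2 : SMB_R e x2 s2) : x = x2 := by
  obtain ⟨⟨⟨ha, hb⟩, hc⟩, hd⟩ := h
  obtain ⟨⟨⟨ha2, hb2⟩, hc2⟩, hd2⟩ := h2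
  have hF : SMB_F e s := ⟨x, ha, hx, hb⟩
  have hF2 : SMB_F e s2 := ⟨x2, ha2, hx2, hb2⟩
  have hs : s = s2 := by
    rcases lt_trichotomy s s2 with h | h | h
    · exact absurd hF (hc2 s h)
    · exact h
    · exact absurd hF2 (hc s2 h)
  subst hs
  rcases lt_trichotomy x x2 with h | h | h
  · exact absurd ⟨hx, hb⟩ (hd2 x h)
  · exact h
  · exact absurd ⟨hx2, hb2⟩ (hd x2 h)

theorem SMB_sqrt (r i : ℕ) (hi : i < r + 1) : Nat.sqrt (r * r + i) = r := by
  refine (Nat.eq_sqrt.mpr ⟨Nat.le_add_right _ _, ?_⟩).symm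
  nlinarith

theorem SMB_out (r : ℕ) : ∃ j, Nat.sqrt j = r ∧ ¬ ∃ s, SMB_N j s := by
  by_contra hcon
  have hall : ∀ i : ℕ, i < r + 1 → ∃ e, e < r ∧ ∃ s', SMB_R e (r * r + i) s' := by
    intro i hi
    have h1 : ∃ s, SMB_N (r * r + i) s := by
      by_contra h2
      exact hcon ⟨r * r + i, SMB_sqrt r i hi, h2⟩
    obtain ⟨s, e, he, s', hs', hR⟩ := h1
    rw [SMB_sqrt r i hi] at he
    exact ⟨e, he, s', hR⟩
  choose! f hf hg using hall
  obtain ⟨i, hi, i2, hi2, hne, hff⟩ :=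
    Finset.exists_ne_map_eq_of_card_lt_of_maps_to (s := Finset.range (r + 1))
      (t := Finset.range r) (f := f) (by simp)
      (fun i hi => by
        have := hf i (Finset.mem_range.mp (by simpa using hi))
        simpa using this)
  have hi' := Finset.mem_range.mp hi
  have hi2' := Finset.mem_range.mp hi2
  obtain ⟨s, hs⟩ := hg i hi'
  obtain ⟨s2, hs2⟩ := hg i2 hi2'
  rw [← hff] at hs2
  have hlt := hf i hi'
  have heq := SMB_uniq (by rw [SMB_sqrt r i hi']; exact hlt)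
    (by rw [SMB_sqrt r i2 hi2']; exact hlt) hs hs2
  exact hne (by omega)

theorem SMB_meet (W : ℕ → Prop) (hW : REPred W) (hinf : {z | W z}.Infinite) :
    ∃ z, W z ∧ ∃ s, SMB_N z s := by
  obtain ⟨e, he⟩ := We_surj hW
  have hx : ∃ x, W x ∧ e < Nat.sqrt x := by
    obtain ⟨x, hx, hlt⟩ := hinf.exists_gt ((e + 1) * (e + 1))
    exact ⟨x, hx, Nat.le_sqrt.mpr hlt.le⟩
  obtain ⟨x, hWx, hex⟩ := hx
  obtain ⟨s0, hs0⟩ := (he x).mpr hWx
  have hF : ∃ s, SMB_F e s :=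
    ⟨max s0 x, x, Nat.lt_succ_of_le (le_max_right _ _), hex, Wst_mono (le_max_left _ _) hs0⟩
  classical
  obtain ⟨s, hsF, hsmin⟩ : ∃ s, SMB_F e s ∧ ∀ t < s, ¬ SMB_F e t :=
    ⟨Nat.find hF, Nat.find_spec hF, fun t ht => Nat.find_min hF ht⟩
  obtain ⟨y, hy1, hy2, hy3⟩ := hsF
  have hQ : ∃ z, e < Nat.sqrt z ∧ Wst e s z := ⟨y, hy2, hy3⟩
  have hz := Nat.find_spec hQ
  have hzle : Nat.find hQ ≤ y := Nat.find_min' hQ ⟨hy2, hy3⟩
  refine ⟨Nat.find hQ, (he _).mp ⟨s, hz.2⟩, s, e, hz.1, s, Nat.lt_succ_self s,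
    ⟨⟨⟨lt_of_le_of_lt hzle hy1, hz.2⟩, hsmin⟩, fun x' hx' => Nat.find_min hQ hx'⟩⟩

theorem SMB_row : SMB_stmt := by
  refine ⟨SMB_N, SMB_N_cp, ?_, SMB_out, SMB_meet⟩
  rintro z s s' hss ⟨e, he, t, ht, hR⟩
  exact ⟨e, he, t, lt_of_lt_of_le ht (Nat.succ_le_succ hss), hR⟩

end S5
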